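import Mathlib
import Pool.Agent.MP_4cde56_an.Defs
import Pool.Agent.Mg.F4cde56.G23e561

set_option autoImplicit false

namespace Pool.Agent.MP_4cde56_an.Old.NotCortex

open MeasureTheory Pool.Agent.MP_4cde56_an

/-- A compact metrizable abelian group whose measure algebra is not a cortex algebra. -/
theorem result :
    ∃ (G : Type) (_ : AddCommGroup G) (_ : TopologicalSpace G) (_ : IsTopologicalAddGroup G)
      (_ : T2Space G) (_ : LocallyCompactSpace G) (_ : CompactSpace G)
      (_ : SecondCountableTopology G) (_ : MeasurableSpace G) (_ : BorelSpace G),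
      (∀ μ : ComplexMeasure G, IsFiniteMeasure μ.variation ∧ μ.variation.Regular) ∧
      ∃ φ : ComplexMeasure G →ₗ[ℂ] ℂ, φ ≠ 0 ∧ (∀ μ ν, φ (conv μ ν) = φ μ * φ ν) ∧
        ∃ (n : ℕ) (μ : Fin n → ComplexMeasure G), (∀ j, φ (μ j) = 0) ∧
          ∃ c : ENNReal, 0 < c ∧ ∀ ν : ComplexMeasure G, ν.variation Set.univ = 1 →
            c ≤ ∑ j, (conv (μ j) ν).variation Set.univ :=
  ⟨GG, inferInstance, inferInstance, inferInstance, inferInstance, inferInstance, inferInstance,
    inferInstance, inferInstance, inferInstance,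
    fun _ => ⟨inferInstance, inferInstance⟩, counterexample⟩

end Pool.Agent.MP_4cde56_an.Old.NotCortex
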